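import Pool.Agent.Helper97.HW.A2

/-! Block R1 (`Inv.Phi_min`) of MP_074879_pr. -/

open Finset

namespace HW

section R1aux

theorem R1_epsL_tilt (v : ℕ → ℝ) (K : ℕ) (s : ℝ) :
    epsL (tilt v K s) K = Fs v K s / ms v K s := by
  unfold epsL tilt Fs
  rw [Finset.sum_div]
  refine Finset.sum_congr rfl fun k _ => ?_
  ring

theorem R1_tilt_Dp_ge (v : ℕ → ℝ) (K : ℕ) (hv : ∀ k, 0 ≤ v k) (s : ℝ) (hs : 0 ≤ s)
    (hm : 0 < ms v K s) (x : ℕ) : Dp v x ≤ Dp (tilt v K s) x * ms v K s := by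
  unfold Dp
  rw [Finset.sum_mul]
  refine Finset.sum_le_sum fun k _ => ?_
  have h1 : (1 - (k : ℝ)) * tilt v K s k * ms v K s
      = (1 - (k : ℝ)) * v k * Real.exp (-s * ((k : ℝ) - 1)) := by
    unfold tilt
    field_simp
  rw [h1]
  have h2 : 0 ≤ (1 - (k : ℝ)) * (Real.exp (-s * ((k : ℝ) - 1)) - 1) := by
    rcases le_total (0 : ℝ) (1 - (k : ℝ)) with h | h
    · refine mul_nonneg h ?_
      have : 1 ≤ Real.exp (-s * ((k : ℝ) - 1)) := by
        apply Real.one_le_exp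
        nlinarith
      linarith
    · refine mul_nonneg_of_nonpos_of_nonpos h ?_
      have : Real.exp (-s * ((k : ℝ) - 1)) ≤ 1 := by
        apply Real.exp_le_one_iff.2
        nlinarith
      linarith
  nlinarith [hv k, mul_nonneg (hv k) h2]

theorem R1_pow4 (L : ℕ) (hL : 16 ≤ L) : (L : ℝ) ^ 4 ≤ 2 ^ L := by
  have : L ^ 4 ≤ 2 ^ L := by
    induction L, hL using Nat.le_induction with
    | base => norm_num
    | succ n hn ih =>
      have h1 : (n + 1) ^ 4 ≤ 2 * n ^ 4 := by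
        have e1 : (n + 1) ^ 4 = n ^ 4 + 4 * n ^ 3 + 6 * n ^ 2 + 4 * n + 1 := by ring
        have e2 : 16 * n ^ 3 ≤ n ^ 4 := by
          have : n ^ 4 = n * n ^ 3 := by ring
          rw [this]; exact Nat.mul_le_mul_right _ hn
        have e3 : 16 * n ^ 2 ≤ n ^ 3 := by
          have : n ^ 3 = n * n ^ 2 := by ring
          rw [this]; exact Nat.mul_le_mul_right _ hn
        have e4 : 16 * n ≤ n ^ 2 := by
          have : n ^ 2 = n * n := by ring
          rw [this]; exact Nat.mul_le_mul_right _ hn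
        rw [e1]; omega
      calc (n + 1) ^ 4 ≤ 2 * n ^ 4 := h1
        _ ≤ 2 * 2 ^ n := Nat.mul_le_mul_left _ ih
        _ = 2 ^ (n + 1) := by ring
  exact_mod_cast this

end R1aux

section R1c

theorem R1_alg (M b x y ε : ℝ) (hM : 0 < M) (hb : 0 < b) (hx : 0 < x) (hy : 0 < y) :
    (49 / 100 * (M * b / y)) * ((49 / 100 * (M * b / y)) * (ε / (x * (8 * M * b) ^ 2) *
      (100 / 272))) = (2401 / 27200) * ε / (64 * x * y ^ 2) := by
  field_simp
  ring

theorem R1_num (x y : ℝ) (hx : 1000 ≤ x) (hy0 : 0 ≤ y) (hy : y ≤ x + 1) :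
    64 * x * y ^ 2 ≤ 2401 / 27200 * (1000 * x ^ 3) := by
  have h14 : y ^ 2 ≤ (x + 1) ^ 2 := pow_le_pow_left₀ hy0 hy 2
  have h15 : x * y ^ 2 ≤ x * (x + 1) ^ 2 := mul_le_mul_of_nonneg_left h14 (by linarith)
  have h16 : x * (x + 1) ^ 2 ≤ 13 / 10 * x ^ 3 := by
    have h17 : (x + 1) ^ 2 ≤ 13 / 10 * x ^ 2 := by nlinarith
    calc x * (x + 1) ^ 2 ≤ x * (13 / 10 * x ^ 2) := mul_le_mul_of_nonneg_left h17 (by linarith)
      _ = 13 / 10 * x ^ 3 := by ring
  have h18 : 0 ≤ x ^ 3 := by positivity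
  linarith

/-- the colour takes away at least `ε / (1000 L³)` -/
theorem R1_color (L : ℕ) (L' ε b θ θ' : ℝ) (K' : ℕ) (hL1000 : (1000 : ℝ) ≤ L)
    (hL'ge : (L : ℝ) ≤ L') (hL'le : L' ≤ L + 1) (ε0 : 0 < ε) (hb1 : 1 ≤ b)
    (hM4 : (L : ℝ) ^ 4 ≤ 2 ^ L) (h1' : L' = θ' * (2 ^ L * b))
    (hK' : ⌊8 * 2 ^ L * b⌋₊ < K') :
    Fs (col L ε b θ) K' θ' ≤ - (ε / (1000 * (L : ℝ) ^ 3)) := by
  have hLpos : (0 : ℝ) < L := by linarith
  have hL'pos : 0 < L' := by linarith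
  have hbpos : 0 < b := by linarith
  set M : ℝ := 2 ^ L with hM
  have hMpos : 0 < M := by positivity
  have hMb : 0 < M * b := by positivity
  have hθ'eq : θ' = L' / (M * b) := by rw [eq_div_iff hMb.ne']; exact h1'.symm
  have hθ'pos : 0 < θ' := by rw [hθ'eq]; positivity
  have hL3 : (0 : ℝ) < (L : ℝ) ^ 3 := by positivity
  have hM84 : 1000 * (L : ℝ) ^ 3 ≤ M := by
    calc 1000 * (L : ℝ) ^ 3 ≤ (L : ℝ) * (L : ℝ) ^ 3 := mul_le_mul_of_nonneg_right hL1000 hL3.le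
      _ = (L : ℝ) ^ 4 := by ring
      _ ≤ M := hM4
  have hL31 : (L : ℝ) + 1 ≤ (L : ℝ) ^ 3 := by
    have : (L : ℝ) ^ 3 = L * (L * L) := by ring
    nlinarith [mul_pos hLpos hLpos]
  set X : ℝ := M * b / L' with hX
  have hXpos : 0 < X := by positivity
  have hθX : θ' * X = 1 := by
    rw [hX, hθ'eq]; field_simp
  have hML' : 1000 * L' ≤ M := by linarith
  have hX1 : 1000 * b ≤ X := by
    rw [hX, le_div_iff₀ hL'pos]
    nlinarith
  have hX2 : X ≤ 8 * M * b := by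
    rw [hX, div_le_iff₀ hL'pos]
    nlinarith
  have hq : 0 ≤ qc L ε b := by unfold qc; positivity
  have hg0 : ∀ k, 0 ≤ col L ε b θ k := by
    intro k
    unfold col
    split_ifs
    · exact mul_nonneg hq (Real.exp_pos _).le
    · exact le_rfl
  set A := ⌊X / 2⌋₊ with hA
  set B := ⌊X⌋₊ with hB
  have hAle : (A : ℝ) ≤ X / 2 := Nat.floor_le (by positivity)
  have hAlt : X / 2 < A + 1 := Nat.lt_floor_add_one _
  have hBle : (B : ℝ) ≤ X := Nat.floor_le hXpos.le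
  have hBlt : X < B + 1 := Nat.lt_floor_add_one _
  have hAB : A ≤ B := Nat.floor_mono (by linarith)
  have hsub : Ioc A B ⊆ range K' := by
    intro k hk
    rw [Finset.mem_Ioc] at hk
    rw [Finset.mem_range]
    have : B ≤ ⌊8 * M * b⌋₊ := Nat.floor_mono hX2
    omega
  have hterm : ∀ k ∈ range K', k ∉ Ioc A B →
      (1 - (k : ℝ)) * col L ε b θ k * Real.exp (-θ' * ((k : ℝ) - 1)) ≤ 0 := by
    intro k _ _
    rcases Nat.eq_zero_or_pos k with h0 | h0
    · have : col L ε b θ k = 0 := by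
        unfold col
        rw [if_neg]
        intro hc
        rw [h0] at hc
        have h7 := hc.1
        push_cast at h7
        linarith
      rw [this]; simp
    · have hk1 : (1 : ℝ) ≤ k := by exact_mod_cast h0
      have h8 := Real.exp_pos (-θ' * ((k : ℝ) - 1))
      have h9 : 0 ≤ col L ε b θ k * Real.exp (-θ' * ((k : ℝ) - 1)) := mul_nonneg (hg0 k) h8.le
      nlinarith
  have hle : Fs (col L ε b θ) K' θ' ≤
      ∑ k ∈ Ioc A B, (1 - (k : ℝ)) * col L ε b θ k * Real.exp (-θ' * ((k : ℝ) - 1)) := by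
    unfold Fs
    rw [← Finset.sum_sdiff hsub]
    have : ∑ k ∈ range K' \ Ioc A B,
        (1 - (k : ℝ)) * col L ε b θ k * Real.exp (-θ' * ((k : ℝ) - 1)) ≤ 0 := by
      apply Finset.sum_nonpos
      intro k hk
      rw [Finset.mem_sdiff] at hk
      exact hterm k hk.1 hk.2
    linarith
  have hin : ∀ k ∈ Ioc A B, (1 - (k : ℝ)) * col L ε b θ k * Real.exp (-θ' * ((k : ℝ) - 1))
      ≤ - ((X / 2 - 1) * (qc L ε b * (100 / 272))) := by
    intro k hk
    rw [Finset.mem_Ioc] at hk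
    have hk1 : (A : ℝ) + 1 ≤ k := by exact_mod_cast hk.1
    have hk2 : (k : ℝ) ≤ B := by exact_mod_cast hk.2
    have hcol : col L ε b θ k = qc L ε b := by
      unfold col
      rw [if_pos]
      · have : soft θ b k = 0 := by
          unfold soft
          rw [max_eq_right (by linarith)]
          simp
        rw [this]; simp
      · constructor
        · linarith
        · linarith
    rw [hcol]
    have hexp : 100 / 272 ≤ Real.exp (-θ' * ((k : ℝ) - 1)) := by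
      have h3 : -1 ≤ -θ' * ((k : ℝ) - 1) := by nlinarith
      have h4 : Real.exp (-1) ≤ Real.exp (-θ' * ((k : ℝ) - 1)) := Real.exp_le_exp.2 h3
      refine le_trans ?_ h4
      rw [Real.exp_neg]
      have h5 := Real.exp_one_lt_d9
      have h6 := Real.exp_pos 1
      rw [div_le_iff₀ (by norm_num)]
      rw [← div_eq_inv_mul, le_div_iff₀ h6]
      linarith
    have h10 : X / 2 - 1 ≤ (k : ℝ) - 1 := by linarith
    have h11 : (X / 2 - 1) * (qc L ε b * (100 / 272)) ≤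
        ((k : ℝ) - 1) * (qc L ε b * Real.exp (-θ' * ((k : ℝ) - 1))) := by
      apply mul_le_mul h10 _ (by positivity) (by linarith)
      exact mul_le_mul_of_nonneg_left hexp hq
    linarith
  have hcard : ((Ioc A B).card : ℝ) ≥ X / 2 - 1 := by
    rw [Nat.card_Ioc, Nat.cast_sub hAB]
    linarith
  have hX21 : 49 / 100 * X ≤ X / 2 - 1 := by linarith
  have hq2 : 0 ≤ qc L ε b * (100 / 272) := by positivity
  have h13 : (49 / 100 * X) * ((49 / 100 * X) * (qc L ε b * (100 / 272)))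
      = (2401 / 27200) * ε / (64 * L * L' ^ 2) := by
    rw [hX]
    unfold qc
    rw [← hM]
    exact R1_alg M b L L' ε hMpos hbpos hLpos hL'pos
  have h17 : 64 * (L : ℝ) * L' ^ 2 ≤ 2401 / 27200 * (1000 * L ^ 3) :=
    R1_num L L' hL1000 hL'pos.le hL'le
  have h18 : ε / (1000 * (L : ℝ) ^ 3) ≤ (2401 / 27200) * ε / (64 * L * L' ^ 2) := by
    rw [div_le_div_iff₀ (by positivity) (by positivity)]
    calc ε * (64 * L * L' ^ 2) ≤ ε * (2401 / 27200 * (1000 * L ^ 3)) :=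
          mul_le_mul_of_nonneg_left h17 ε0.le
      _ = 2401 / 27200 * ε * (1000 * L ^ 3) := by ring
  have h19 : (49 / 100 * X) * ((49 / 100 * X) * (qc L ε b * (100 / 272))) ≤
      ((Ioc A B).card : ℝ) * ((X / 2 - 1) * (qc L ε b * (100 / 272))) := by
    have h20 : 0 ≤ 49 / 100 * X * (qc L ε b * (100 / 272)) :=
      mul_nonneg (by linarith) hq2
    exact mul_le_mul (by linarith) (mul_le_mul_of_nonneg_right hX21 hq2) h20 (Nat.cast_nonneg _)
  calc Fs (col L ε b θ) K' θ'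
      ≤ ∑ k ∈ Ioc A B, (1 - (k : ℝ)) * col L ε b θ k * Real.exp (-θ' * ((k : ℝ) - 1)) := hle
    _ ≤ ∑ k ∈ Ioc A B, (- ((X / 2 - 1) * (qc L ε b * (100 / 272)))) :=
        Finset.sum_le_sum hin
    _ = - (((Ioc A B).card : ℝ) * ((X / 2 - 1) * (qc L ε b * (100 / 272)))) := by
        rw [Finset.sum_const, nsmul_eq_mul]; ring
    _ ≤ - (ε / (1000 * (L : ℝ) ^ 3)) := by linarith

end R1c

section R1h

/-- at most `L` powers of two lie between `b` and `2^L b` -/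
theorem R1_card (N L : ℕ) (b b' : ℝ) (hb : b' ≤ b * 2 ^ L) :
    (((range N).filter fun a => b < (2 : ℝ) ^ a ∧ (2 : ℝ) ^ a ≤ b').card : ℝ) ≤ L := by
  classical
  set S := (range N).filter fun a => b < (2 : ℝ) ^ a ∧ (2 : ℝ) ^ a ≤ b' with hS
  rcases S.eq_empty_or_nonempty with h0 | h0
  · rw [h0]; simp
  · have hmin := S.min'_mem h0
    set a0 := S.min' h0 with ha0
    have hsub : S ⊆ Ico a0 (a0 + L) := by
      intro a ha
      rw [Finset.mem_Ico]
      refine ⟨S.min'_le a ha, ?_⟩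
      have h1 : b < (2 : ℝ) ^ a0 := (Finset.mem_filter.1 hmin).2.1
      have h2 : (2 : ℝ) ^ a ≤ b' := (Finset.mem_filter.1 ha).2.2
      have h3 : (2 : ℝ) ^ a < 2 ^ (a0 + L) := by
        calc (2 : ℝ) ^ a ≤ b * 2 ^ L := h2.trans hb
          _ < 2 ^ a0 * 2 ^ L := mul_lt_mul_of_pos_right h1 (by positivity)
          _ = 2 ^ (a0 + L) := by rw [pow_add]
      exact (pow_lt_pow_iff_right₀ (by norm_num : (1 : ℝ) < 2)).1 h3
    have h4 := Finset.card_le_card hsub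
    rw [Nat.card_Ico] at h4
    have h5 : S.card ≤ L := by omega
    exact_mod_cast h5

theorem R1_hsum (w w' : ℕ → ℝ) (e L : ℕ) (ε ε' m : ℝ) (ε1 : ε ≤ 1) (ε0 : 0 < ε)
    (hpos : 0 < ε') (hle : ε' ≤ ε) (hm : 1 ≤ m) (hD' : ∀ x : ℕ, 1 ≤ x → ε' ≤ Dp w' x)
    (hD : ∀ x : ℕ, 1 ≤ x → (x : ℝ) ≤ ε * 2 ^ e → ε ≤ Dp w x ∧ Dp w x ≤ Dp w' x * m) :
    ε' * hsum w' (e + L) (ε' * 2 ^ (e + L)) ≤ (ε' * m) * hsum w e (ε * 2 ^ e) + L := by
  classical
  have hb : ε' * 2 ^ (e + L) ≤ (ε * 2 ^ e) * 2 ^ L := by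
    calc ε' * 2 ^ (e + L) ≤ ε * 2 ^ (e + L) := mul_le_mul_of_nonneg_right hle (by positivity)
      _ = (ε * 2 ^ e) * 2 ^ L := by rw [pow_add]; ring
  have hcard := R1_card (e + L + 1) L (ε * 2 ^ e) (ε' * 2 ^ (e + L)) hb
  have hterm : ∀ a ∈ range (e + L + 1),
      (if (2 : ℝ) ^ a ≤ ε' * 2 ^ (e + L) then 1 / Dp w' (2 ^ a) else 0) ≤
      m * (if (2 : ℝ) ^ a ≤ ε * 2 ^ e then 1 / Dp w (2 ^ a) else 0) +
      (if ε * 2 ^ e < (2 : ℝ) ^ a ∧ (2 : ℝ) ^ a ≤ ε' * 2 ^ (e + L) then 1 / ε' else 0) := by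
    intro a _
    have hx1 : 1 ≤ 2 ^ a := Nat.one_le_two_pow
    have hcast : (((2 ^ a : ℕ) : ℝ)) = (2 : ℝ) ^ a := by push_cast; rfl
    by_cases c1 : (2 : ℝ) ^ a ≤ ε * 2 ^ e
    · obtain ⟨h2, h3⟩ := hD (2 ^ a) hx1 (by rw [hcast]; exact c1)
      have h4 : 0 < Dp w (2 ^ a) := by linarith
      have h5 : 0 < Dp w' (2 ^ a) := lt_of_lt_of_le hpos (hD' _ hx1)
      have h6 : 1 / Dp w' (2 ^ a) ≤ m * (1 / Dp w (2 ^ a)) := by
        rw [mul_one_div, div_le_div_iff₀ h5 h4]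
        linarith
      have h7 : 0 ≤ m * (1 / Dp w (2 ^ a)) := by positivity
      have h8 : ¬ (ε * 2 ^ e < (2 : ℝ) ^ a ∧ (2 : ℝ) ^ a ≤ ε' * 2 ^ (e + L)) :=
        fun hc => absurd c1 (not_le.2 hc.1)
      rw [if_pos c1, if_neg h8, add_zero]
      split_ifs
      · exact h6
      · exact h7
    · by_cases c2 : (2 : ℝ) ^ a ≤ ε' * 2 ^ (e + L)
      · rw [if_pos c2, if_neg c1, if_pos ⟨not_le.1 c1, c2⟩, mul_zero, zero_add]
        exact one_div_le_one_div_of_le hpos (hD' _ hx1)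
      · rw [if_neg c2, if_neg c1, if_neg (fun hc => c2 hc.2)]
        simp
  have hsum1 : hsum w' (e + L) (ε' * 2 ^ (e + L)) ≤
      m * hsum w e (ε * 2 ^ e) + L * (1 / ε') := by
    unfold hsum
    refine (Finset.sum_le_sum hterm).trans ?_
    rw [Finset.sum_add_distrib, ← Finset.mul_sum]
    have h2 : ∑ a ∈ range (e + L + 1), (if (2 : ℝ) ^ a ≤ ε * 2 ^ e then 1 / Dp w (2 ^ a) else 0) =
        ∑ a ∈ range (e + 1), (if (2 : ℝ) ^ a ≤ ε * 2 ^ e then 1 / Dp w (2 ^ a) else 0) := by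
      symm
      apply Finset.sum_subset
      · intro a ha
        rw [Finset.mem_range] at ha ⊢
        omega
      · intro a _ ha
        rw [Finset.mem_range, not_lt] at ha
        rw [if_neg]
        intro hc
        have h3 : (2 : ℝ) ^ e < 2 ^ a := pow_lt_pow_right₀ (by norm_num) (by omega)
        have h4 : ε * 2 ^ e ≤ 1 * 2 ^ e := mul_le_mul_of_nonneg_right ε1 (by positivity)
        linarith
    rw [h2]
    have h3 : ∑ a ∈ range (e + L + 1),
        (if ε * 2 ^ e < (2 : ℝ) ^ a ∧ (2 : ℝ) ^ a ≤ ε' * 2 ^ (e + L) then 1 / ε' else 0) ≤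
        L * (1 / ε') := by
      rw [← Finset.sum_filter, Finset.sum_const, nsmul_eq_mul]
      exact mul_le_mul_of_nonneg_right hcard (by positivity)
    linarith
  calc ε' * hsum w' (e + L) (ε' * 2 ^ (e + L))
      ≤ ε' * (m * hsum w e (ε * 2 ^ e) + L * (1 / ε')) :=
        mul_le_mul_of_nonneg_left hsum1 hpos.le
    _ = (ε' * m) * hsum w e (ε * 2 ^ e) + L := by field_simp

end R1h

section R1
variable (w : ℕ → ℝ) (K : ℕ) (θ : ℝ) (e L : ℕ)

/-- elementary facts used in R1 -/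
theorem R1_facts (h : Inv w K θ e L) (L' : ℕ) (hL' : L' = L ∨ L' = L + 1)
    (θ' : ℝ) (h1 : (L' : ℝ) = θ' * (epsL w K * 2 ^ (e + L))) :
    (1000 : ℝ) ≤ L ∧ (L : ℝ) ≤ L' ∧ (L' : ℝ) ≤ L + 1 ∧ 1 ≤ epsL w K * 2 ^ e ∧
    (L' : ℝ) = θ' * (2 ^ L * (epsL w K * 2 ^ e)) ∧ 0 < θ' ∧ θ' * 2 ^ L ≤ 12 / 10 * θ ∧
    θ' ≤ θ ∧ θ ≤ 1 / 1000 := by
  obtain ⟨ε0, ε1, ε8⟩ := Inv.eps_pow w K θ e L h
  have hL1000 : (1000 : ℝ) ≤ L := by exact_mod_cast h.L_ge
  have hL'ge : (L : ℝ) ≤ L' := by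
    rcases hL' with r | r
    · rw [r]
    · rw [r]; push_cast; linarith
  have hL'le : (L' : ℝ) ≤ L + 1 := by
    rcases hL' with r | r
    · rw [r]; linarith
    · rw [r]; push_cast; linarith
  have hLpos : (0 : ℝ) < L := by linarith
  have hb1 : 1 ≤ epsL w K * 2 ^ e := by
    have h2 : (epsL w K) ^ 8 ≤ epsL w K := by
      calc (epsL w K) ^ 8 = epsL w K * (epsL w K) ^ 7 := by ring
        _ ≤ epsL w K * 1 :=
          mul_le_mul_of_nonneg_left (pow_le_one₀ ε0.le ε1) ε0.le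
        _ = epsL w K := mul_one _
    calc (1 : ℝ) ≤ (epsL w K) ^ 8 * 2 ^ e := ε8
      _ ≤ epsL w K * 2 ^ e := mul_le_mul_of_nonneg_right h2 (by positivity)
  have h1' : (L' : ℝ) = θ' * (2 ^ L * (epsL w K * 2 ^ e)) := by rw [h1, pow_add]; ring
  have hMb : 0 < 2 ^ L * (epsL w K * 2 ^ e) := by positivity
  have hθ'eq : θ' = L' / (2 ^ L * (epsL w K * 2 ^ e)) := by
    rw [eq_div_iff hMb.ne']; exact h1'.symm
  have hθ'pos : 0 < θ' := by
    rw [hθ'eq]
    exact div_pos (by linarith) hMb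
  have htau : 9 / 10 * (L : ℝ) ≤ θ * (epsL w K * 2 ^ e) := h.tau
  have hθratio : θ' * 2 ^ L ≤ 12 / 10 * θ := by
    have h2 : θ' * 2 ^ L * (epsL w K * 2 ^ e) ≤ 12 / 10 * θ * (epsL w K * 2 ^ e) := by
      calc θ' * 2 ^ L * (epsL w K * 2 ^ e) = L' := by rw [h1']; ring
        _ ≤ L + 1 := hL'le
        _ ≤ 12 / 10 * (9 / 10 * L) := by linarith
        _ ≤ 12 / 10 * (θ * (epsL w K * 2 ^ e)) := mul_le_mul_of_nonneg_left htau (by norm_num)
        _ = 12 / 10 * θ * (epsL w K * 2 ^ e) := by ring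
    exact le_of_mul_le_mul_right h2 (by positivity)
  have hM2 : (2 : ℝ) ≤ 2 ^ L := by
    calc (2 : ℝ) = 2 ^ 1 := by norm_num
      _ ≤ 2 ^ L := pow_le_pow_right₀ (by norm_num) (by have := h.L_ge; omega)
  have hθ'le : θ' ≤ θ := by
    have h2 : θ' * 2 ≤ 12 / 10 * θ := (mul_le_mul_of_nonneg_left hM2 hθ'pos.le).trans hθratio
    have := h.θ_pos
    linarith
  have hθ1 : θ ≤ 1 / 1000 := by
    have hth := Inv.theta_small w K θ e L h
    have he : (L : ℝ) ^ 5 ≤ e := by exact_mod_cast h.L_le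
    have he1 : (1 : ℝ) ≤ e := le_trans (one_le_pow₀ (by linarith)) he
    have he3 : (1 : ℝ) ≤ (e : ℝ) ^ 3 := one_le_pow₀ he1
    have := h.θ_pos
    nlinarith
  exact ⟨hL1000, hL'ge, hL'le, hb1, h1', hθ'pos, hθratio, hθ'le, hθ1⟩

/-- main estimate of R1 -/
theorem R1_main (h : Inv w K θ e L) (L' : ℕ) (hL' : L' = L ∨ L' = L + 1)
    (θ' : ℝ) (h1 : (L' : ℝ) = θ' * (epsL w K * 2 ^ (e + L))) :
    Fs (fun k => w k + phCol w K θ e L k) (nextK w K e L) θ' ≤
      (1 - 1 / (2000 * (L : ℝ) ^ 3)) * epsL w K := by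
  obtain ⟨ε0, ε1, ε8⟩ := Inv.eps_pow w K θ e L h
  have hth := Inv.theta_small w K θ e L h
  obtain ⟨hL1000, hL'ge, hL'le, hb1, h1', hθ'pos, hθratio, hθ'le, hθ1⟩ :=
    R1_facts w K θ e L h L' hL' θ' h1
  have hM4 : (L : ℝ) ^ 4 ≤ 2 ^ L := R1_pow4 L (by have := h.L_ge; omega)
  have hcolor := R1_color L L' (epsL w K) (epsL w K * 2 ^ e) θ θ' (nextK w K e L) hL1000
    hL'ge hL'le ε0 hb1 hM4 h1' (by unfold nextK; apply lt_max_of_lt_right; omega)
  have hLpos : (0 : ℝ) < L := by linarith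
  have hL3 : (0 : ℝ) < (L : ℝ) ^ 3 := by positivity
  have hL3' : (1 : ℝ) ≤ (L : ℝ) ^ 3 := one_le_pow₀ (by linarith)
  have hM84 : 1000 * (L : ℝ) ^ 3 ≤ 2 ^ L := by
    calc 1000 * (L : ℝ) ^ 3 ≤ (L : ℝ) * (L : ℝ) ^ 3 := mul_le_mul_of_nonneg_right hL1000 hL3.le
      _ = (L : ℝ) ^ 4 := by ring
      _ ≤ 2 ^ L := hM4
  have hK1 : 1 ≤ K := by
    rcases Nat.eq_zero_or_pos K with h0 | h0
    · exfalso
      have := h.law.one
      rw [h0] at this
      simp at this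
    · exact h0
  have hw0 : w 0 ≤ 1 := by
    rw [← h.law.one]
    exact Finset.single_le_sum (f := w) (fun i _ => h.law.nonneg i) (Finset.mem_range.2 hK1)
  have hθ := h.θ_pos
  -- F_w(θ')
  have hF1 : Fs w K θ' ≤ epsL w K + θ' * Vp w K + 2 * θ' := by
    have h2 := Fs_add_le w K h.law.nonneg hK1 0 θ' le_rfl hθ'pos.le
    rw [zero_add, Fs_zero] at h2
    have h3 := S2_zero_le w K h.law.nonneg h.law.supp 0 le_rfl
    have h4 : Real.exp θ' - Real.exp 0 ≤ 2 * θ' := by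
      have hθ'1 : θ' ≤ 1 := by linarith
      have h5 := Real.abs_exp_sub_one_le (x := θ') (by rw [abs_of_pos hθ'pos]; exact hθ'1)
      rw [abs_of_pos hθ'pos] at h5
      rw [Real.exp_zero]
      exact (le_abs_self _).trans h5
    have h6 : 0 ≤ Real.exp θ' - Real.exp 0 := by
      rw [Real.exp_zero]; have := Real.add_one_le_exp θ'; linarith
    have h5 : w 0 * (Real.exp θ' - Real.exp 0) ≤ 2 * θ' := by
      calc w 0 * (Real.exp θ' - Real.exp 0) ≤ 1 * (Real.exp θ' - Real.exp 0) :=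
            mul_le_mul_of_nonneg_right hw0 h6
        _ ≤ 2 * θ' := by linarith
    have h7 : θ' * S2 w K 0 ≤ θ' * Vp w K := mul_le_mul_of_nonneg_left h3 hθ'pos.le
    linarith
  have hF2 : θ' * Vp w K ≤ epsL w K / (5000 * (L : ℝ) ^ 3) := by
    have h2 := h.v2
    have h3 : θ' * Vp w K * 2 ^ L ≤ 84 / 5000 * epsL w K := by
      calc θ' * Vp w K * 2 ^ L ≤ θ' * (7 / 500 * (epsL w K / θ)) * 2 ^ L := by
            apply mul_le_mul_of_nonneg_right _ (by positivity)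
            exact mul_le_mul_of_nonneg_left h2 hθ'pos.le
        _ = (θ' * 2 ^ L) * (7 / 500 * (epsL w K / θ)) := by ring
        _ ≤ (12 / 10 * θ) * (7 / 500 * (epsL w K / θ)) :=
            mul_le_mul_of_nonneg_right hθratio (by positivity)
        _ = (84 / 5000) * epsL w K := by field_simp; norm_num
    have hV : 0 ≤ θ' * Vp w K := by
      apply mul_nonneg hθ'pos.le
      unfold Vp
      exact Finset.sum_nonneg fun k _ => mul_nonneg (sq_nonneg _) (h.law.nonneg k)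
    rw [le_div_iff₀ (by positivity)]
    have h4 : θ' * Vp w K * (1000 * (L : ℝ) ^ 3) ≤ θ' * Vp w K * 2 ^ L :=
      mul_le_mul_of_nonneg_left hM84 hV
    linarith
  have hF3 : 2 * θ' ≤ epsL w K / (5000 * (L : ℝ) ^ 3) := by
    have he : (L : ℝ) ^ 5 ≤ e := by exact_mod_cast h.L_le
    have he1 : 1000 * (L : ℝ) ≤ e := by
      have h2 : (L : ℝ) ^ 2 * 1 ≤ (L : ℝ) ^ 2 * (L : ℝ) ^ 3 :=
        mul_le_mul_of_nonneg_left hL3' (by positivity)
      have h3 : (L : ℝ) ^ 2 * (L : ℝ) ^ 3 = (L : ℝ) ^ 5 := by ring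
      nlinarith
    have he3 : 1000 * (L : ℝ) ^ 3 ≤ (e : ℝ) ^ 3 := by
      have h2 : (1000 * (L : ℝ)) ^ 3 ≤ (e : ℝ) ^ 3 := pow_le_pow_left₀ (by positivity) he1 3
      have h3 : (1000 * (L : ℝ)) ^ 3 = 1000000000 * (L : ℝ) ^ 3 := by ring
      linarith
    have h5 : 1000 * (L : ℝ) ^ 3 * θ' ≤ epsL w K / 1000 := by
      calc 1000 * (L : ℝ) ^ 3 * θ' ≤ (e : ℝ) ^ 3 * θ :=
            mul_le_mul he3 hθ'le hθ'pos.le (by positivity)
        _ ≤ epsL w K / 1000 := hth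
    rw [le_div_iff₀ (by positivity)]
    linarith
  have hsplit : Fs (fun k => w k + phCol w K θ e L k) (nextK w K e L) θ' =
      Fs w K θ' + Fs (phCol w K θ e L) (nextK w K e L) θ' := by
    have h2 : Fs w K θ' = Fs w (nextK w K e L) θ' := by
      unfold Fs
      apply Finset.sum_subset
      · intro k hk
        rw [Finset.mem_range] at hk ⊢
        exact lt_of_lt_of_le hk (le_max_left _ _)
      · intro k _ hk
        rw [Finset.mem_range, not_lt] at hk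
        rw [h.law.supp k hk]
        simp
    rw [h2]
    unfold Fs
    rw [← Finset.sum_add_distrib]
    refine Finset.sum_congr rfl fun k _ => ?_
    ring
  rw [hsplit]
  have hcolor' : Fs (phCol w K θ e L) (nextK w K e L) θ' ≤
      - (epsL w K / (1000 * (L : ℝ) ^ 3)) := hcolor
  have e0 : (1 - 1 / (2000 * (L : ℝ) ^ 3)) * epsL w K =
      epsL w K - (epsL w K / (L : ℝ) ^ 3) / 2000 := by
    field_simp
  have e1 : epsL w K / (5000 * (L : ℝ) ^ 3) = (epsL w K / (L : ℝ) ^ 3) / 5000 := by field_simp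
  have e2 : epsL w K / (1000 * (L : ℝ) ^ 3) = (epsL w K / (L : ℝ) ^ 3) / 1000 := by field_simp
  rw [e0]
  rw [e1] at hF2 hF3
  rw [e2] at hcolor'
  have h20 : 0 < epsL w K / (L : ℝ) ^ 3 := by positivity
  linarith

/-- R1: with the minimal tilt, `Φ` decreases up to an additive term -/
theorem Inv.Phi_min (h : Inv w K θ e L) (L' : ℕ) (hL' : L' = L ∨ L' = L + 1)
    (hLe : L' ^ 5 ≤ e + L) (θ' : ℝ) (h1 : (L' : ℝ) = θ' * (epsL w K * 2 ^ (e + L))) :
    epsL (nextW w K θ e L θ') (nextK w K e L) ≤ epsL w K ∧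
    Phi (nextW w K θ e L θ') (nextK w K e L) (e + L) ≤
      (1 - 1 / (4000 * (L : ℝ) ^ 3)) * Phi w K e + L + 1 := by
  obtain ⟨ε0, ε1, ε8⟩ := Inv.eps_pow w K θ e L h
  obtain ⟨hL1000, hL'ge, hL'le, hb1, h1', hθ'pos, hθratio, hθ'le, hθ1⟩ :=
    R1_facts w K θ e L h L' hL' θ' h1
  have hmain := R1_main w K θ e L h L' hL' θ' h1
  have hm1 := (Inv.ms_bounds w K θ e L h θ' hθ'pos.le (by linarith)).1
  have hLpos : (0 : ℝ) < L := by linarith
  have hL3 : (0 : ℝ) < (L : ℝ) ^ 3 := by positivity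
  have hL3' : (1 : ℝ) ≤ (L : ℝ) ^ 3 := one_le_pow₀ (by linarith)
  set v : ℕ → ℝ := fun k => w k + phCol w K θ e L k with hv
  set K' := nextK w K e L with hK'
  set m := ms v K' θ' with hm
  have hmpos : 0 < m := by linarith
  have hg0 : ∀ k, 0 ≤ phCol w K θ e L k := by
    intro k
    unfold phCol col
    split_ifs
    · unfold qc
      positivity
    · exact le_rfl
  have hv0 : ∀ k, 0 ≤ v k := fun k => add_nonneg (h.law.nonneg k) (hg0 k)
  have hvsupp : ∀ k, K' ≤ k → v k = 0 := by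
    intro k hk
    have h2 : K ≤ k := le_trans (le_max_left _ _) hk
    have h3 : ⌊8 * 2 ^ L * (epsL w K * 2 ^ e)⌋₊ + 1 ≤ k := le_trans (le_max_right _ _) hk
    have h4 : phCol w K θ e L k = 0 := by
      unfold phCol col
      rw [if_neg]
      intro hc
      have h5 : k ≤ ⌊8 * 2 ^ L * (epsL w K * 2 ^ e)⌋₊ := Nat.le_floor hc.2
      omega
    rw [hv]
    simp only
    rw [h.law.supp k h2, h4, add_zero]
  have hnext : nextW w K θ e L θ' = tilt v K' θ' := rfl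
  have heps : epsL (nextW w K θ e L θ') K' * m = Fs v K' θ' := by
    rw [hnext, R1_epsL_tilt]
    exact div_mul_cancel₀ _ hmpos.ne'
  set ε' := epsL (nextW w K θ e L θ') K' with hε'
  have hfac0 : 0 ≤ 1 - 1 / (2000 * (L : ℝ) ^ 3) := by
    have : 1 / (2000 * (L : ℝ) ^ 3) ≤ 1 := by
      rw [div_le_one (by positivity)]; linarith
    linarith
  have hfac1 : 1 - 1 / (2000 * (L : ℝ) ^ 3) ≤ 1 - 1 / (4000 * (L : ℝ) ^ 3) := by
    have : 1 / (4000 * (L : ℝ) ^ 3) ≤ 1 / (2000 * (L : ℝ) ^ 3) := by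
      apply div_le_div_of_nonneg_left (by norm_num) (by positivity)
      linarith
    linarith
  have hfac2 : 1 - 1 / (2000 * (L : ℝ) ^ 3) ≤ 1 := by
    have : 0 ≤ 1 / (2000 * (L : ℝ) ^ 3) := by positivity
    linarith
  have hε'm : ε' * m ≤ (1 - 1 / (2000 * (L : ℝ) ^ 3)) * epsL w K := by
    rw [heps]; exact hmain
  have hε'le : ε' ≤ epsL w K := by
    by_contra hc
    push Not at hc
    have h2 : ε' ≤ ε' * m := by nlinarith
    nlinarith
  refine ⟨hε'le, ?_⟩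
  -- positivity of the new drift
  have hw'0 : ∀ k, 0 ≤ nextW w K θ e L θ' k := by
    intro k
    rw [hnext]
    unfold tilt
    exact div_nonneg (mul_nonneg (hv0 k) (Real.exp_pos _).le) hmpos.le
  have hw'supp : ∀ k, K' ≤ k → nextW w K θ e L θ' k = 0 := by
    intro k hk
    rw [hnext]
    unfold tilt
    rw [hvsupp k hk]
    simp
  have hDeps : ∀ x : ℕ, 1 ≤ x → ε' ≤ Dp (nextW w K θ e L θ') x :=
    fun x hx => eps_le_Dp _ _ hw'0 hw'supp x hx
  have hDpos : ∀ x : ℕ, 1 ≤ x → epsL w K ≤ Dp w x :=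
    fun x hx => eps_le_Dp _ _ h.law.nonneg h.law.supp x hx
  -- comparison of the truncated drifts below `b`
  have hDcmp : ∀ x : ℕ, (x : ℝ) ≤ epsL w K * 2 ^ e → Dp w x ≤ Dp (nextW w K θ e L θ') x * m := by
    intro x hx
    have h2 := R1_tilt_Dp_ge v K' hv0 θ' hθ'pos.le hmpos x
    have h3 : Dp v x = Dp w x := by
      unfold Dp
      refine Finset.sum_congr rfl fun k hk => ?_
      have hk' : k ≤ x := by rw [Finset.mem_range] at hk; omega
      have h4 : phCol w K θ e L k = 0 := by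
        unfold phCol col
        rw [if_neg]
        intro hc
        have h5 : (k : ℝ) ≤ x := by exact_mod_cast hk'
        linarith [hc.1]
      rw [hv]
      simp only
      rw [h4, add_zero]
    rw [h3] at h2
    exact h2
  -- conclusion
  have hPhi0 : 0 ≤ hsum w e (epsL w K * 2 ^ e) := by
    unfold hsum
    apply Finset.sum_nonneg
    intro a _
    split_ifs
    · have := hDpos (2 ^ a) Nat.one_le_two_pow
      have h2 : 0 < Dp w (2 ^ a) := by linarith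
      positivity
    · exact le_rfl
  have hPhi1 : 0 ≤ epsL w K * hsum w e (epsL w K * 2 ^ e) := mul_nonneg ε0.le hPhi0
  unfold Phi
  rcases le_or_gt ε' 0 with hneg | hpos
  · have h2 : hsum (nextW w K θ e L θ') (e + L) (ε' * 2 ^ (e + L)) = 0 := by
      unfold hsum
      apply Finset.sum_eq_zero
      intro a _
      rw [if_neg]
      intro hc
      have h3 : (0 : ℝ) < 2 ^ a := by positivity
      have h4 : ε' * 2 ^ (e + L) ≤ 0 := mul_nonpos_of_nonpos_of_nonneg hneg (by positivity)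
      linarith
    rw [h2, mul_zero]
    have h5 : 0 ≤ (1 - 1 / (4000 * (L : ℝ) ^ 3)) * (epsL w K * hsum w e (epsL w K * 2 ^ e)) :=
      mul_nonneg (hfac0.trans hfac1) hPhi1
    linarith
  · have hlow := R1_hsum w (nextW w K θ e L θ') e L (epsL w K) ε' m ε1 ε0 hpos hε'le hm1 hDeps
      (fun x hx hxb => ⟨hDpos x hx, hDcmp x hxb⟩)
    calc ε' * hsum (nextW w K θ e L θ') (e + L) (ε' * 2 ^ (e + L))
        ≤ (ε' * m) * hsum w e (epsL w K * 2 ^ e) + L := hlow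
      _ ≤ ((1 - 1 / (2000 * (L : ℝ) ^ 3)) * epsL w K) * hsum w e (epsL w K * 2 ^ e) + L := by
          have := mul_le_mul_of_nonneg_right hε'm hPhi0
          linarith
      _ = (1 - 1 / (2000 * (L : ℝ) ^ 3)) * (epsL w K * hsum w e (epsL w K * 2 ^ e)) + L := by
          ring
      _ ≤ (1 - 1 / (4000 * (L : ℝ) ^ 3)) * (epsL w K * hsum w e (epsL w K * 2 ^ e)) + L := by
          have := mul_le_mul_of_nonneg_right hfac1 hPhi1
          linarith
      _ ≤ (1 - 1 / (4000 * (L : ℝ) ^ 3)) * (epsL w K * hsum w e (epsL w K * 2 ^ e)) + L + 1 := by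
          linarith

end R1

end HW
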